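import Mathlib
import Pool.Agent.H29.SN.AC

/-!
# Integrality of equivariant Stickelberger elements for metabelian groups at the primes with
abelian Sylow subgroups

`Λ` plays the role of `χ ↦ δ_T(r, χ) L_S(r, χ̌)`.  By the Artin formalism it is inductive, so
`IntegralAt Λ H` says that the Stickelberger element of the maximal abelian subextension of
`L / L ^ H` is integral.

The definitions (`IrrRep`, `indChar`, `ev`, `IntegralAt`, `theta`, `centralValue`, `reducedNorm`,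
`integralityRing`) are in the imported files of `Pool/Agent/H25/SI`.
-/

namespace Pool.Agent.Results.MP_939b97_nt.AbelianSylow

open H25SI

theorem result (G : Type) [Group G] [Fintype G] (A : Subgroup G) [A.Normal]
    (hA : ∀ a ∈ A, ∀ b ∈ A, a * b = b * a) (hQ : ∀ x y : G, x * y * x⁻¹ * y⁻¹ ∈ A)
    (h : (∃ C : Subgroup G, (∀ a ∈ C, ∀ b ∈ C, a * b = b * a) ∧ A ⊔ C = ⊤) ∨
      ∀ p : ℕ, p.Prime → ∀ P : Sylow p G, ∀ x ∈ P, ∀ y ∈ P, x * y = y * x)
    (Λ : (G → ℂ) → ℂ) (hΛ : ∀ H : Subgroup G, commutator G ≤ H → IntegralAt Λ H) :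
    ∃ N : ℕ, N ≠ 0 ∧ (∀ p : ℕ, p.Prime → p ∣ N →
        ∃ P : Sylow p G, ∃ x ∈ P, ∃ y ∈ P, x * y ≠ y * x) ∧
      (N : ℤ) • theta Λ ∈ integralityRing G :=
  H29SN.metabelian_product A hA hQ h Λ hΛ

end Pool.Agent.Results.MP_939b97_nt.AbelianSylow
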