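import Mathlib
import Pool.Agent.H29.MD.Main

/-!
# Denominators of equivariant Stickelberger elements for monomial groups

`Λ` plays the role of `χ ↦ δ_T(r, χ) L_S(r, χ̌)`.  By the Artin formalism it is inductive, so
`IntegralAt Λ H` says that the Stickelberger element of the maximal abelian subextension of
`L / L ^ H` is integral.  The theorem says that `|G'|` times the part of `θ` in the monomial
characters is the element of the centre of `ℚ[G]` attached to an element of the centre of `ℤ[G]`.

The definitions (`IrrRep`, `indChar`, `ev`, `IntegralAt`, `theta`, `centralValue`) are in the imported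
files of `Pool/Agent/H25/SI`.
-/

namespace Pool.Agent.Results.MP_939b97_nt.MonomialDenominators

open H25SI

theorem result (G : Type) [Group G] [Fintype G] (Λ : (G → ℂ) → ℂ)
    (hΛ : ∀ H : Subgroup G, IntegralAt Λ H) :
    ∃ z ∈ Subring.center (MonoidAlgebra ℤ G), ∀ π : IrrRep G,
      ((∃ (H : Subgroup G) (f : H →* ℂˣ), (fun g => (π.ρ g).trace) = indChar H f) →
        centralValue z π = (Nat.card (commutator G) : ℂ) * theta Λ π) ∧
      ((¬ ∃ (H : Subgroup G) (f : H →* ℂˣ), (fun g => (π.ρ g).trace) = indChar H f) →
        centralValue z π = 0) :=
  H29MD.monomial_denominators Λ hΛ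

end Pool.Agent.Results.MP_939b97_nt.MonomialDenominators
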