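import Mathlib
import Pool.Agent.H29.SQ.Fin

/-!
# Integrality of equivariant Stickelberger elements for semidirect products of abelian groups

`Λ` plays the role of `χ ↦ δ_T(r, χ) L_S(r, χ̌)`, extended multiplicatively to all characters of `G`.
By the Artin formalism it is multiplicative and inductive, so `IntegralAt Λ H` says that the
Stickelberger element of the maximal abelian subextension of `L / L ^ H` is integral.

The definitions (`IrrRep`, `IsCharacter`, `indChar`, `ev`, `IntegralAt`, `IsMultiplicative`, `theta`,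
`centralValue`, `reducedNorm`, `integralityRing`) are in the imported files of `Pool/Agent/H25/SI`.
-/

namespace Pool.Agent.Results.MP_939b97_nt.SquarefreeComplement

open H25SI

theorem result (G : Type) [Group G] [Fintype G] (A C : Subgroup G) [A.Normal]
    (hA : ∀ a ∈ A, ∀ b ∈ A, a * b = b * a) (hC : ∀ a ∈ C, ∀ b ∈ C, a * b = b * a)
    (hAC : A.IsComplement' C) (hex : Squarefree (Monoid.exponent C))
    (Λ : (G → ℂ) → ℂ) (hΛ : IsMultiplicative Λ)
    (hI : ∀ H : Subgroup G, commutator G ≤ H → IntegralAt Λ H) :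
    ∃ N : ℕ, N ≠ 0 ∧ (∀ p : ℕ, p.Prime → p ∣ N → p ^ 2 ∣ Nat.card C ∧
        ∃ P : Sylow p G, ∃ x ∈ P, ∃ y ∈ P, x * y ≠ y * x) ∧
      (N : ℤ) • theta Λ ∈ integralityRing G :=
  H29SQ.squarefree_split A C hA hC hAC hex Λ hΛ hI

end Pool.Agent.Results.MP_939b97_nt.SquarefreeComplement
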