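import Mathlib
import Pool.Agent.H25.SI.Grp

/-!
# Integrality of equivariant Stickelberger elements for groups with two abelian levels

`Λ` plays the role of `χ ↦ δ_T(r, χ) L_S(r, χ̌)`, extended multiplicatively to all characters of `G`.
By the Artin formalism it is multiplicative and inductive, so `IntegralAt Λ A` says that the
Stickelberger element of the abelian extension `L / L ^ A` is integral, and `IntegralAt Λ ⊤` says
that the Stickelberger element of the maximal abelian subextension of `L / K` is integral.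

The definitions (`IrrRep`, `IsCharacter`, `indChar`, `ev`, `IntegralAt`, `IsMultiplicative`, `theta`,
`centralValue`, `reducedNorm`, `integralityRing`) are in the imported files of `Pool/Agent/H25/SI`.
-/

namespace Pool.Agent.Results.MP_939b97_nt.TwoLevelIntegrality

open H25SI

theorem result (G : Type) [Group G] [Fintype G] (A : Subgroup G) [A.Normal]
    (hA : ∀ a ∈ A, ∀ b ∈ A, a * b = b * a)
    (hG : ((∀ x y : G, x * y * x⁻¹ * y⁻¹ ∈ A) ∧
            ∀ g : G, g ∉ A → ∀ x y : G, ∃ a ∈ A, a * g * a⁻¹ * g⁻¹ = x * y * x⁻¹ * y⁻¹) ∨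
          A.index.Prime ∨
          ((∀ x y : G, x * y * x⁻¹ * y⁻¹ ∈ A) ∧ ∀ g : G, g ∉ A → ∀ a ∈ A, a * g = g * a → a = 1))
    (Λ : (G → ℂ) → ℂ) (hΛ : IsMultiplicative Λ) (h1 : IntegralAt Λ A) (h2 : IntegralAt Λ ⊤) :
    theta Λ ∈ integralityRing G := by
  rcases hG with ⟨hQ, hC⟩ | hp | ⟨hQ, hF⟩
  · exact two_level A hA hQ hC Λ hΛ h1 h2
  · obtain ⟨hQ, hC⟩ := index_cond A hA hp
    exact two_level A hA hQ hC Λ hΛ h1 h2
  · exact two_level A hA hQ (frobenius_cond A hA hQ hF) Λ hΛ h1 h2

end Pool.Agent.Results.MP_939b97_nt.TwoLevelIntegrality
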